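import Pool.Agent.Helper1.MT.Defs

/-!
# Project MT, module F: squarefree integers coprime to `W`
-/

set_option autoImplicit false

namespace Pool.Agent.Helper55.MT

open Finset Pool.Agent.Helper1.MT
open scoped ArithmeticFunction.Moebius

/-! ### The integers coprime to `W` -/

/-- The centred indicator function of the integers coprime to `W`. -/
noncomputable def ff (W n : ℕ) : ℝ := (if n.Coprime W then 1 else 0) - (W.totient : ℝ) / W

noncomputable def SS (W N : ℕ) : ℝ := ∑ n ∈ Ico 1 (N + 1), ff W n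

theorem alpha_nonneg (W : ℕ) : (0 : ℝ) ≤ (W.totient : ℝ) / W := by positivity

theorem alpha_le (W : ℕ) : (W.totient : ℝ) / W ≤ 1 := by
  rcases Nat.eq_zero_or_pos W with h | h
  · simp [h]
  · rw [div_le_one (by exact_mod_cast h)]
    exact_mod_cast Nat.totient_le W

theorem abs_ff_le (W n : ℕ) : |ff W n| ≤ 1 := by
  have h1 := alpha_nonneg W
  have h2 := alpha_le W
  unfold ff
  rw [abs_le]
  split_ifs <;> constructor <;> linarith

theorem SS_add (W N : ℕ) (hW : 0 < W) : SS W (N + W) = SS W N := by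
  unfold SS
  have h1 : ∑ n ∈ Ico 1 (N + W + 1), ff W n =
      ∑ n ∈ Ico 1 (N + 1), ff W n + ∑ n ∈ Ico (N + 1) (N + 1 + W), ff W n := by
    rw [Finset.sum_Ico_consecutive _ (by omega) (by omega)]
    congr 2
    omega
  rw [h1, add_eq_left]
  unfold ff
  rw [Finset.sum_sub_distrib, Finset.sum_ite, Finset.sum_const_zero, add_zero, Finset.sum_const,
    Finset.sum_const, Nat.card_Ico, nsmul_eq_mul, nsmul_eq_mul, mul_one]
  have h2 : ((Ico (N + 1) (N + 1 + W)).filter fun n => n.Coprime W).card = W.totient := by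
    rw [← Nat.filter_coprime_Ico_eq_totient W (N + 1)]
    congr 1
    apply Finset.filter_congr
    intro x _
    exact Nat.coprime_comm
  rw [h2]
  have hW' : (W : ℝ) ≠ 0 := by positivity
  have h3 : N + 1 + W - (N + 1) = W := by omega
  rw [h3]
  field_simp
  ring

theorem abs_SS_le (W : ℕ) (hW : 0 < W) (N : ℕ) : |SS W N| ≤ W := by
  induction N using Nat.strong_induction_on with
  | _ N ih =>
    rcases lt_or_ge N W with h | h
    · unfold SS
      refine (Finset.abs_sum_le_sum_abs _ _).trans ?_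
      refine (Finset.sum_le_card_nsmul _ _ 1 fun n _ => abs_ff_le W n).trans ?_
      rw [Nat.card_Ico, nsmul_eq_mul, mul_one]
      have : N + 1 - 1 ≤ W := by omega
      exact_mod_cast this
    · obtain ⟨M, rfl⟩ := Nat.exists_eq_add_of_le' h
      rw [SS_add W M hW]
      exact ih M (by omega)

noncomputable def TT (W N : ℕ) : ℝ := ∑ n ∈ Ico 1 (N + 1), ff W n / n

theorem abs_TT_sub_le (W : ℕ) (hW : 0 < W) (N : ℕ) :
    |TT W N - SS W N / (N + 1)| ≤ W * (1 - 1 / ((N : ℝ) + 1)) := by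
  induction N with
  | zero => simp [TT, SS]
  | succ N ih =>
    have h1 : TT W (N + 1) = TT W N + ff W (N + 1) / ((N + 1 : ℕ) : ℝ) := by
      unfold TT
      rw [Finset.sum_Ico_succ_top (by omega)]
    have h2 : SS W (N + 1) = SS W N + ff W (N + 1) := by
      unfold SS
      rw [Finset.sum_Ico_succ_top (by omega)]
    have h3 : TT W (N + 1) - SS W (N + 1) / (((N + 1 : ℕ) : ℝ) + 1) =
        (TT W N - SS W N / (N + 1)) + SS W (N + 1) * (1 / ((N : ℝ) + 1) - 1 / ((N : ℝ) + 2)) := by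
      rw [h1, h2]
      push_cast
      have : (N : ℝ) + 1 ≠ 0 := by positivity
      have : (N : ℝ) + 2 ≠ 0 := by positivity
      have : (N : ℝ) + 1 + 1 ≠ 0 := by positivity
      field_simp
      ring
    rw [h3]
    have h4 : (0 : ℝ) ≤ 1 / ((N : ℝ) + 1) - 1 / ((N : ℝ) + 2) := by
      rw [sub_nonneg]
      apply one_div_le_one_div_of_le (by positivity)
      linarith
    refine (abs_add_le _ _).trans ?_
    rw [abs_mul, abs_of_nonneg h4]
    have h5 := mul_le_mul_of_nonneg_right (abs_SS_le W hW (N + 1)) h4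
    refine (add_le_add ih h5).trans_eq ?_
    push_cast
    ring

theorem abs_TT_le (W : ℕ) (hW : 0 < W) (N : ℕ) : |TT W N| ≤ 2 * W := by
  have h1 := abs_TT_sub_le W hW N
  have h2 := abs_SS_le W hW N
  have h3 : |SS W N / (N + 1)| ≤ W := by
    rw [abs_div, abs_of_pos (by positivity : (0 : ℝ) < N + 1)]
    rw [div_le_iff₀ (by positivity)]
    have : (0 : ℝ) ≤ W * N := by positivity
    nlinarith
  have h4 : (W : ℝ) * (1 - 1 / ((N : ℝ) + 1)) ≤ W := by
    have : (0 : ℝ) ≤ W * (1 / ((N : ℝ) + 1)) := by positivity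
    linarith
  calc |TT W N| = |(TT W N - SS W N / (N + 1)) + SS W N / (N + 1)| := by ring_nf
    _ ≤ _ := abs_add_le _ _
    _ ≤ 2 * W := by linarith

noncomputable def GG (W : ℕ) (t : ℝ) : ℝ :=
  ∑ n ∈ (Icc 1 ⌊t⌋₊).filter (fun n => n.Coprime W), 1 / (n : ℝ)

theorem GG_eq (W : ℕ) (t : ℝ) :
    GG W t = TT W ⌊t⌋₊ + (W.totient : ℝ) / W * (harmonic ⌊t⌋₊ : ℝ) := by
  unfold GG TT ff
  rw [harmonic_eq_sum_Icc]
  push_cast
  rw [Finset.mul_sum]
  have h1 : Ico 1 (⌊t⌋₊ + 1) = Icc 1 ⌊t⌋₊ := by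
    ext x
    simp only [Finset.mem_Ico, Finset.mem_Icc]
    omega
  rw [h1, ← Finset.sum_add_distrib, Finset.sum_filter]
  apply Finset.sum_congr rfl
  intro n _
  split_ifs <;> ring

theorem abs_GG_le (W : ℕ) (hW : 0 < W) (t : ℝ) (ht : 1 ≤ t) :
    |GG W t - (W.totient : ℝ) / W * Real.log t| ≤ 2 * W + 1 := by
  rw [GG_eq]
  have h1 := harmonic_floor_le_one_add_log t ht
  have h2 := log_le_harmonic_floor t (by linarith)
  have h3 := abs_TT_le W hW ⌊t⌋₊
  have h4 := alpha_nonneg W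
  have h5 := alpha_le W
  have h6 : |(W.totient : ℝ) / W * (harmonic ⌊t⌋₊ : ℝ) - (W.totient : ℝ) / W * Real.log t| ≤ 1 := by
    rw [← mul_sub, abs_mul, abs_of_nonneg h4, abs_of_nonneg (by linarith)]
    nlinarith
  calc _ = |TT W ⌊t⌋₊ + ((W.totient : ℝ) / W * (harmonic ⌊t⌋₊ : ℝ) -
        (W.totient : ℝ) / W * Real.log t)| := by ring_nf
    _ ≤ _ := abs_add_le _ _
    _ ≤ _ := by linarith

/-! ### Squarefree numbers -/

theorem dvd_of_sq_dvd {s a b : ℕ} (ha : Squarefree a) (hb : b ≠ 0) (h : s ^ 2 ∣ b ^ 2 * a) :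
    s ∣ b := by
  have ha0 : a ≠ 0 := ha.ne_zero
  have hs : s ≠ 0 := by
    rintro rfl
    rw [zero_pow (by norm_num), zero_dvd_iff] at h
    rcases Nat.mul_eq_zero.1 h with h | h
    · exact hb (pow_eq_zero_iff (by norm_num) |>.1 h)
    · exact ha0 h
  rw [← Nat.factorization_le_iff_dvd hs hb]
  intro p
  have h1 := (Nat.factorization_le_iff_dvd (by positivity) (by positivity)).2 h p
  rw [Nat.factorization_mul (by positivity) ha0, Nat.factorization_pow, Nat.factorization_pow] at h1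
  simp only [Finsupp.coe_add, Pi.add_apply, Finsupp.coe_smul, Pi.smul_apply, smul_eq_mul] at h1
  have h2 := (Nat.squarefree_iff_factorization_le_one ha0).1 ha p
  omega

theorem sum_moebius (n N : ℕ) (hn : 0 < n) (hN : ∀ s, s ^ 2 ≤ n → s ≤ N) :
    ∑ s ∈ (Icc 1 N).filter (fun s => s ^ 2 ∣ n), (μ s : ℝ) = if Squarefree n then 1 else 0 := by
  obtain ⟨a, b, hab, ha⟩ := Nat.sq_mul_squarefree n
  have hb : b ≠ 0 := by
    rintro rfl
    rw [zero_pow (by norm_num), zero_mul] at hab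
    omega
  have h1 : (Icc 1 N).filter (fun s => s ^ 2 ∣ n) = b.divisors := by
    ext s
    simp only [Finset.mem_filter, Finset.mem_Icc, Nat.mem_divisors]
    constructor
    · rintro ⟨⟨h1, h2⟩, h3⟩
      exact ⟨dvd_of_sq_dvd ha hb (hab ▸ h3), hb⟩
    · rintro ⟨h1, h2⟩
      have h3 : s ^ 2 ∣ n := by
        rw [← hab]
        exact (pow_dvd_pow_of_dvd h1 2).mul_right a
      refine ⟨⟨Nat.pos_of_dvd_of_pos h1 (Nat.pos_of_ne_zero hb), hN s (Nat.le_of_dvd hn h3)⟩, h3⟩
  rw [h1]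
  have h2 : ∑ s ∈ b.divisors, (μ s : ℝ) = if b = 1 then 1 else 0 := by
    have h4 : ∑ s ∈ b.divisors, μ s = if b = 1 then 1 else 0 := by
      rw [← ArithmeticFunction.coe_zeta_mul_apply, ArithmeticFunction.coe_zeta_mul_moebius,
        ArithmeticFunction.one_apply]
    rw [← Int.cast_sum, h4]
    split_ifs <;> simp
  rw [h2]
  congr 1
  apply propext
  constructor
  · rintro rfl
    rw [one_pow, one_mul] at hab
    rw [← hab]
    exact ha
  · intro h
    have h3 : b * b ∣ n := by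
      rw [← hab, sq]
      exact Dvd.intro _ rfl
    exact Nat.isUnit_iff.1 (h b h3)


theorem inner_sum (W s : ℕ) (z : ℝ) (hs : 1 ≤ s) (hz : 0 ≤ z) :
    ∑ d ∈ ((Icc 1 ⌊z⌋₊).filter (fun d => d.Coprime W)).filter (fun d => s ^ 2 ∣ d), 1 / (d : ℝ) =
      if s.Coprime W then 1 / (s : ℝ) ^ 2 * GG W (z / (s : ℝ) ^ 2) else 0 := by
  have hs0 : (0 : ℝ) < (s : ℝ) ^ 2 := by positivity
  split_ifs with hc
  · unfold GG
    rw [Finset.mul_sum]
    have h1 : ((Icc 1 ⌊z⌋₊).filter (fun d => d.Coprime W)).filter (fun d => s ^ 2 ∣ d) =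
        ((Icc 1 ⌊z / (s : ℝ) ^ 2⌋₊).filter (fun n => n.Coprime W)).image (fun m => s ^ 2 * m) := by
      ext d
      simp only [Finset.mem_filter, Finset.mem_Icc, Finset.mem_image]
      constructor
      · rintro ⟨⟨⟨h1, h2⟩, h3⟩, m, rfl⟩
        refine ⟨m, ⟨⟨?_, ?_⟩, ?_⟩, rfl⟩
        · rcases Nat.eq_zero_or_pos m with h | h
          · simp [h] at h1
          · exact h
        · rw [Nat.le_floor_iff (by positivity), le_div_iff₀ hs0]
          rw [Nat.le_floor_iff hz] at h2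
          push_cast at h2
          linarith
        · exact Nat.Coprime.coprime_dvd_left (Dvd.intro_left _ rfl) h3
      · rintro ⟨m, ⟨⟨h1, h2⟩, h3⟩, rfl⟩
        refine ⟨⟨⟨?_, ?_⟩, ?_⟩, Dvd.intro _ rfl⟩
        · have : 0 < s ^ 2 * m := by positivity
          omega
        · rw [Nat.le_floor_iff (by positivity), le_div_iff₀ hs0] at h2
          rw [Nat.le_floor_iff hz]
          push_cast
          linarith
        · exact Nat.Coprime.mul_left (hc.pow_left 2) h3
    rw [h1, Finset.sum_image]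
    · apply Finset.sum_congr rfl
      intro m _
      push_cast
      rw [one_div_mul_one_div]
    · intro x _ y _ hxy
      exact Nat.eq_of_mul_eq_mul_left (by positivity) hxy
  · apply Finset.sum_eq_zero
    intro d hd
    exfalso
    simp only [Finset.mem_filter] at hd
    apply hc
    exact Nat.Coprime.coprime_dvd_left ((dvd_pow_self s two_ne_zero).trans hd.2) hd.1.2

noncomputable def aa (W s : ℕ) : ℝ := if s.Coprime W then (μ s : ℝ) / (s : ℝ) ^ 2 else 0

theorem QQ_eq (W N : ℕ) (z : ℝ) (hz : 0 ≤ z) (hN : ∀ s : ℕ, (s : ℝ) ^ 2 ≤ z → s ≤ N) :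
    ∑ d ∈ (Icc 1 ⌊z⌋₊).filter (fun d => Squarefree d ∧ d.Coprime W), 1 / (d : ℝ) =
      ∑ s ∈ Icc 1 N, aa W s * GG W (z / (s : ℝ) ^ 2) := by
  have h1 : (Icc 1 ⌊z⌋₊).filter (fun d => Squarefree d ∧ d.Coprime W) =
      ((Icc 1 ⌊z⌋₊).filter (fun d => d.Coprime W)).filter (fun d => Squarefree d) := by
    rw [Finset.filter_filter]
    apply Finset.filter_congr
    intro x _
    exact and_comm
  rw [h1, Finset.sum_filter (s := (Icc 1 ⌊z⌋₊).filter (fun d => d.Coprime W))]
  have h2 : ∀ d ∈ (Icc 1 ⌊z⌋₊).filter (fun d => d.Coprime W),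
      (if Squarefree d then 1 / (d : ℝ) else 0) =
        ∑ s ∈ Icc 1 N, if s ^ 2 ∣ d then (μ s : ℝ) * (1 / (d : ℝ)) else 0 := by
    intro d hd
    simp only [Finset.mem_filter, Finset.mem_Icc] at hd
    rw [← Finset.sum_filter, ← Finset.sum_mul, sum_moebius d N (by omega)]
    · split_ifs <;> simp
    · intro s hs
      apply hN
      have h3 := (Nat.le_floor_iff hz).1 hd.1.2
      have h4 : ((s ^ 2 : ℕ) : ℝ) ≤ d := by exact_mod_cast hs
      push_cast at h4
      linarith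
  rw [Finset.sum_congr rfl h2, Finset.sum_comm]
  apply Finset.sum_congr rfl
  intro s hs
  rw [← Finset.sum_filter, ← Finset.mul_sum, inner_sum W s z (Finset.mem_Icc.1 hs).1 hz]
  unfold aa
  split_ifs
  · ring
  · simp

theorem abs_aa_le (W s : ℕ) : |aa W s| ≤ 1 / (s : ℝ) ^ 2 := by
  unfold aa
  split_ifs
  · rw [abs_div, abs_of_nonneg (by positivity : (0 : ℝ) ≤ (s : ℝ) ^ 2)]
    apply div_le_div_of_nonneg_right _ (by positivity)
    have := ArithmeticFunction.abs_moebius_le_one (n := s)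
    exact_mod_cast this
  · simp

theorem summable_aa (W : ℕ) : Summable (aa W) :=
  Summable.of_norm_bounded hasSum_zeta_two.summable fun s => by
    rw [Real.norm_eq_abs]
    exact abs_aa_le W s

theorem zeta_two_le : Real.pi ^ 2 / 6 ≤ 1.645 := by
  have h1 := Real.pi_lt_d4
  have h2 := Real.pi_pos
  nlinarith

theorem sum_sq_le (N : ℕ) : ∑ s ∈ Icc 1 N, 1 / (s : ℝ) ^ 2 ≤ 2 := by
  have h1 := hasSum_zeta_two.summable.sum_le_tsum (Icc 1 N) fun s _ => by positivity
  rw [hasSum_zeta_two.tsum_eq] at h1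
  have := zeta_two_le
  linarith

theorem tsum_aa_ge (W : ℕ) : 1 / 4 ≤ ∑' s, aa W s := by
  have h0 : aa W 0 = 0 := by
    unfold aa
    split_ifs <;> simp
  have h1 : aa W 1 = 1 := by simp [aa]
  have h2 : ∑' s, aa W s = aa W 0 + aa W 1 + ∑' s, aa W (s + 2) := by
    rw [← (summable_aa W).sum_add_tsum_nat_add 2]
    simp [Finset.sum_range_succ]
  have h3 : Real.pi ^ 2 / 6 = 0 + 1 + ∑' s : ℕ, 1 / (((s + 2 : ℕ) : ℝ)) ^ 2 := by
    rw [← hasSum_zeta_two.tsum_eq, ← hasSum_zeta_two.summable.sum_add_tsum_nat_add 2]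
    simp [Finset.sum_range_succ]
  have h4 : |∑' s, aa W (s + 2)| ≤ ∑' s : ℕ, 1 / (((s + 2 : ℕ) : ℝ)) ^ 2 := by
    have h5 : Summable fun s : ℕ => 1 / (((s + 2 : ℕ) : ℝ)) ^ 2 :=
      (summable_nat_add_iff 2).2 hasSum_zeta_two.summable
    exact tsum_of_norm_bounded h5.hasSum fun s => by
      rw [Real.norm_eq_abs]
      exact abs_aa_le W (s + 2)
  have h5 := zeta_two_le
  have h6 := abs_le.1 h4
  rw [h2, h0, h1]
  linarith [h6.1]

theorem tail_aa (W N : ℕ) : |∑ s ∈ Icc 1 N, aa W s - ∑' s, aa W s| ≤ 2 / ((N : ℝ) + 1) := by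
  have h0 : aa W 0 = 0 := by
    unfold aa
    split_ifs <;> simp
  have h1 : ∑ s ∈ Icc 1 N, aa W s = ∑ s ∈ range (N + 1), aa W s := by
    rw [Finset.range_eq_Ico, Finset.sum_eq_sum_Ico_succ_bot (by omega), h0, zero_add]
    apply Finset.sum_congr _ fun _ _ => rfl
    ext x
    simp only [Finset.mem_Ico, Finset.mem_Icc]
    omega
  rw [h1]
  have h2 : Filter.Tendsto (fun n => |∑ s ∈ range (N + 1), aa W s - ∑ s ∈ range n, aa W s|)
      Filter.atTop (nhds |∑ s ∈ range (N + 1), aa W s - ∑' s, aa W s|) :=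
    (((summable_aa W).hasSum.tendsto_sum_nat).const_sub _).abs
  refine le_of_tendsto h2 ?_
  filter_upwards [Filter.eventually_ge_atTop (N + 1)] with n hn
  rw [← Finset.sum_range_add_sum_Ico _ hn]
  have h3 : ∑ s ∈ range (N + 1), aa W s -
      (∑ s ∈ range (N + 1), aa W s + ∑ s ∈ Ico (N + 1) n, aa W s) =
      -∑ s ∈ Ico (N + 1) n, aa W s := by ring
  rw [h3, abs_neg]
  refine (Finset.abs_sum_le_sum_abs _ _).trans ?_
  have h4 : ∑ s ∈ Ico (N + 1) n, |aa W s| ≤ ∑ s ∈ Ioo N n, ((s : ℝ) ^ 2)⁻¹ := by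
    have h5 : Ico (N + 1) n = Ioo N n := by
      ext x
      simp only [Finset.mem_Ico, Finset.mem_Ioo]
      omega
    rw [h5]
    refine Finset.sum_le_sum fun s _ => ?_
    rw [← one_div]
    exact abs_aa_le W s
  exact h4.trans (sum_Ioo_inv_sq_le N n)

theorem log_le_two_sqrt {x : ℝ} (hx : 0 < x) : Real.log x ≤ 2 * Real.sqrt x := by
  have h1 : Real.log x = 2 * Real.log (Real.sqrt x) := by
    rw [Real.log_sqrt hx.le]
    ring
  have h2 := Real.log_le_sub_one_of_pos (Real.sqrt_pos.2 hx)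
  rw [h1]
  linarith

theorem exists_log_bound : ∃ B : ℝ, 0 ≤ B ∧ ∀ N : ℕ,
    ∑ s ∈ Icc 1 N, Real.log s / (s : ℝ) ^ 2 ≤ B := by
  have h1 : Summable fun s : ℕ => 2 * (1 / (s : ℝ) ^ (3 / 2 : ℝ)) :=
    (Real.summable_one_div_nat_rpow.2 (by norm_num)).mul_left 2
  refine ⟨∑' s : ℕ, 2 * (1 / (s : ℝ) ^ (3 / 2 : ℝ)), tsum_nonneg fun s => by positivity,
    fun N => ?_⟩
  refine le_trans (Finset.sum_le_sum fun s hs => ?_)
    (h1.sum_le_tsum (Icc 1 N) fun s _ => by positivity)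
  have hs1 : (1 : ℝ) ≤ s := by exact_mod_cast (Finset.mem_Icc.1 hs).1
  have hs0 : (0 : ℝ) < s := by linarith
  have h2 := log_le_two_sqrt hs0
  rw [div_le_iff₀ (by positivity)]
  have h3 : (s : ℝ) ^ 2 = (s : ℝ) ^ (3 / 2 : ℝ) * Real.sqrt s := by
    rw [Real.sqrt_eq_rpow, ← Real.rpow_add hs0, ← Real.rpow_natCast]
    norm_num
  rw [h3]
  have h4 : (0 : ℝ) < (s : ℝ) ^ (3 / 2 : ℝ) := Real.rpow_pos_of_pos hs0 _
  calc Real.log s ≤ 2 * Real.sqrt s := h2
    _ = _ := by field_simp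

theorem sqfreeSum : SqfreeSum := by
  intro W hW
  obtain ⟨B, hB0, hB⟩ := exists_log_bound
  have ha0 : (0 : ℝ) < (W.totient : ℝ) / W := by
    have := Nat.totient_pos.2 hW
    positivity
  have ha1 := alpha_le W
  have hT := tsum_aa_ge W
  refine ⟨(W.totient : ℝ) / W * ∑' s, aa W s, 2 * (2 * W + 1) + 2 * B + 4, by positivity,
    by positivity, ?_, fun z hz => ?_⟩
  · have : (W.totient : ℝ) / (4 * W) = (W.totient : ℝ) / W * (1 / 4) := by
      field_simp
    rw [this]
    exact mul_le_mul_of_nonneg_left hT ha0.le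
  · have hz0 : 0 < z := by linarith
    have hlog : 0 ≤ Real.log z := Real.log_nonneg hz
    set N := ⌊Real.sqrt z⌋₊ with hN
    have hN1 : ∀ s : ℕ, (s : ℝ) ^ 2 ≤ z → s ≤ N := by
      intro s hs
      rw [hN, Nat.le_floor_iff (Real.sqrt_nonneg z)]
      exact Real.le_sqrt_of_sq_le hs
    have hN2 : ∀ s ∈ Icc 1 N, (s : ℝ) ^ 2 ≤ z := by
      intro s hs
      have h1 := (Nat.le_floor_iff (Real.sqrt_nonneg z)).1 (Finset.mem_Icc.1 hs).2
      calc (s : ℝ) ^ 2 ≤ Real.sqrt z ^ 2 := by gcongr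
        _ = z := Real.sq_sqrt hz0.le
    rw [QQ_eq W N z hz0.le hN1]
    -- the three errors
    have e1 : |∑ s ∈ Icc 1 N, aa W s * GG W (z / (s : ℝ) ^ 2) -
        ∑ s ∈ Icc 1 N, aa W s * ((W.totient : ℝ) / W * (Real.log z - 2 * Real.log s))| ≤
        2 * (2 * W + 1) := by
      rw [← Finset.sum_sub_distrib]
      refine (Finset.abs_sum_le_sum_abs _ _).trans ?_
      have h1 : ∀ s ∈ Icc 1 N, |aa W s * GG W (z / (s : ℝ) ^ 2) -
          aa W s * ((W.totient : ℝ) / W * (Real.log z - 2 * Real.log s))| ≤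
          1 / (s : ℝ) ^ 2 * (2 * W + 1) := by
        intro s hs
        have hs1 : (1 : ℝ) ≤ s := by exact_mod_cast (Finset.mem_Icc.1 hs).1
        rw [← mul_sub, abs_mul]
        refine mul_le_mul (abs_aa_le W s) ?_ (abs_nonneg _) (by positivity)
        have h2 := abs_GG_le W hW (z / (s : ℝ) ^ 2)
          ((one_le_div (by positivity)).2 (hN2 s hs))
        rwa [Real.log_div (by linarith) (by positivity), Real.log_pow, Nat.cast_ofNat] at h2
      refine (Finset.sum_le_sum h1).trans ?_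
      rw [← Finset.sum_mul]
      exact mul_le_mul_of_nonneg_right (sum_sq_le N) (by positivity)
    have e2 : |∑ s ∈ Icc 1 N, aa W s * ((W.totient : ℝ) / W * (2 * Real.log s))| ≤ 2 * B := by
      refine (Finset.abs_sum_le_sum_abs _ _).trans ?_
      have h1 : ∀ s ∈ Icc 1 N, |aa W s * ((W.totient : ℝ) / W * (2 * Real.log s))| ≤
          2 * (Real.log s / (s : ℝ) ^ 2) := by
        intro s hs
        have hs1 : (1 : ℝ) ≤ s := by exact_mod_cast (Finset.mem_Icc.1 hs).1
        have hl : 0 ≤ Real.log s := Real.log_nonneg hs1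
        rw [abs_mul, abs_of_nonneg (a := (W.totient : ℝ) / W * (2 * Real.log s)) (by positivity)]
        calc |aa W s| * ((W.totient : ℝ) / W * (2 * Real.log s)) ≤
            1 / (s : ℝ) ^ 2 * (1 * (2 * Real.log s)) := by
              gcongr
              exact abs_aa_le W s
          _ = _ := by ring
      refine (Finset.sum_le_sum h1).trans ?_
      rw [← Finset.mul_sum]
      exact mul_le_mul_of_nonneg_left (hB N) (by norm_num)
    have e3 : |(W.totient : ℝ) / W * Real.log z * (∑ s ∈ Icc 1 N, aa W s - ∑' s, aa W s)| ≤ 4 := by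
      rw [abs_mul, abs_of_nonneg (by positivity)]
      have h1 : (0 : ℝ) < Real.sqrt z := Real.sqrt_pos.2 hz0
      have h2 : Real.sqrt z ≤ (N : ℝ) + 1 := (Nat.lt_floor_add_one _).le
      calc (W.totient : ℝ) / W * Real.log z * |∑ s ∈ Icc 1 N, aa W s - ∑' s, aa W s| ≤
          1 * (2 * Real.sqrt z) * (2 / Real.sqrt z) := by
            refine mul_le_mul (mul_le_mul ha1 (log_le_two_sqrt hz0) hlog (by norm_num))
              ((tail_aa W N).trans ?_) (abs_nonneg _) (by positivity)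
            exact div_le_div_of_nonneg_left (by norm_num) h1 h2
        _ = 4 := by
            field_simp
            norm_num
    have e4 : ∑ s ∈ Icc 1 N, aa W s * ((W.totient : ℝ) / W * (Real.log z - 2 * Real.log s)) =
        (W.totient : ℝ) / W * Real.log z * ∑ s ∈ Icc 1 N, aa W s -
          ∑ s ∈ Icc 1 N, aa W s * ((W.totient : ℝ) / W * (2 * Real.log s)) := by
      rw [Finset.mul_sum, ← Finset.sum_sub_distrib]
      apply Finset.sum_congr rfl
      intro s _
      ring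
    rw [e4] at e1
    have h1 := abs_le.1 e1
    have h2 := abs_le.1 e2
    have h3 := abs_le.1 e3
    rw [mul_sub] at h3
    rw [abs_le]
    constructor <;> nlinarith [h1.1, h1.2, h2.1, h2.2, h3.1, h3.2]

end Pool.Agent.Helper55.MT
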